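import Pool.Agent.E8helper20.CTV.Stm
import Pool.Agent.E8helper20.CT3.Lim9

/-! Project CTV, piece LIMV (adapted from `E8helper20/CT3/Lim9.lean`). -/

set_option autoImplicit false
set_option linter.unusedSectionVars false

open Filter
open scoped Classical Topology PeriodPair

namespace Pool.Agent.E8helper64.CTV

open H667R3 Pool.Agent.W192.HK Pool.Agent.TH936.CM
open Pool.Agent.TH936.PU hiding v_int
open Pool.Agent.Y715.Dist Pool.Agent.Y715.Idn
open Pool.Agent.Y715.T.Lat Pool.Agent.Y696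
open Pool.Agent.Y715.T.Three (lam lam_sq)
open Pool.Agent.Y692.QS (Ei w nr toC)
open Pool.Agent.Y715.T.Rs (eq0)
open Pool.Agent.Y703.CT (toC_w_add re_one im_one fin_quot)
open Pool.Agent.E8helper20.CT3.Xi
open Pool.Agent.E8helper20.CT3.Ni
open Pool.Agent.E8helper20.CTV (S_CHRV S_LRV S_LIMV t1 e1 R1 Ef1)

variable {L : PeriodPair} {Ω : ℂ}

/-- the sum over the residues modulo three -/
noncomputable def T3 (Ω : ℂ) (δ : ℝ) (z : ℂ) : ℂ :=
  Sm (3 : eis) (fun t => t1 (1 + 3 * t) * EE eis Ω δ (z + Ω * t / 3))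

lemma T3_mul (Ω : ℂ) (δ : ℝ) (z a : ℂ) :
    Sm (3 : eis) (fun t => a * (t1 (1 + 3 * t) * EE eis Ω δ (z + Ω * t / 3))) = a * T3 Ω δ z :=
  Sm_mul_left _ _ _

section

variable (hX : S_CHRV) (hR : S_LRV) (hC : Cur L Ω) [Fintype (eis ⧸ (sp 9 : Ideal eis))]

include hX hR hC

/-- the limits of the constants -/
theorem lim_e1 (j : Fin 3) :
    Tendsto (fun δ : ℝ => ∑ y : eis ⧸ (sp 9 : Ideal eis), e1 j y.out *
      EE eis Ω δ (Ω * y.out / (9 : eis))) (𝓝[>] 0) (𝓝 (Ef1 L Ω j)) := by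
  have eo1 := hX.2.2.2.2.2.2.2.1
  have e1_ncop := hX.2.2.2.2.2.2.2.2.1
  have e1_ut := hX.2.2.2.2.2.2.2.2.2.2.1
  have e9' : ((9 : eis) : ℂ) = 9 := rfl
  have key : ∀ δ : ℝ, ∑ y : eis ⧸ (sp 9 : Ideal eis), e1 j y.out *
      EE eis Ω δ (Ω * y.out / (9 : eis)) =
      six (fun u => (u : ℂ) ^ (2 * (j : ℕ))) * T3 Ω δ (Ω / 9) := by
    intro δ
    have h1 := sum9 (F := fun x => e1 j x * EE eis Ω δ (Ω * x / ((9 : eis) : ℂ) + 0))
      (per9 hC (e1 j) (eo1 j).per δ 0) (fun x hx => by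
        show e1 j x * _ = 0
        rw [e1_ncop j x hx, zero_mul])
    simp only [add_zero] at h1
    rw [h1]
    have hterm : ∀ u : eis, IsUnit u → Sm (3 : eis) (fun t => e1 j (u * (1 + 3 * t)) *
        EE eis Ω δ (Ω * ((u * (1 + 3 * t) : eis) : ℂ) / ((9 : eis) : ℂ))) =
        (u : ℂ) ^ (2 * (j : ℕ)) * T3 Ω δ (Ω / 9) := by
      intro u hu
      rw [← T3_mul]
      have hu0 : (u : ℂ) ≠ 0 := coe_ne hu.ne_zero
      refine Finset.sum_congr rfl fun t _ => ?_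
      have e3 : ((3 : eis) : ℂ) = 3 := rfl
      have e : Ω * ((u * (1 + 3 * t) : eis) : ℂ) / ((9 : eis) : ℂ) =
          (u : ℂ) * (Ω / 9 + Ω * t / 3) := by
        push_cast
        rw [e9', e3]
        ring
      beta_reduce
      rw [e, EE_unit hu, e1_ut j u t hu, pow_succ]
      field_simp
    unfold six
    beta_reduce
    rw [hterm 1 (un _ (by simp)), hterm (-1) (un _ (by simp)), hterm omr (un _ (by simp)),
      hterm (-omr) (un _ (by simp)), hterm (omr ^ 2) (un _ (by simp)),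
      hterm (-omr ^ 2) (un _ (by simp))]
    ring
  simp only [key]
  have l := (hR hX L Ω hC (Ω / 9) (gd_z1 hC)).const_mul (six (fun u => (u : ℂ) ^ (2 * (j : ℕ))))
  have e : six (fun u => (u : ℂ) ^ (2 * (j : ℕ))) * R1 L Ω (Ω / 9) = Ef1 L Ω j := by
    have h3 := om_cube
    have hs := om_sq
    unfold six Ef1
    beta_reduce
    push_cast
    rw [omr_coe]
    have hj : (j : ℕ) = 0 ∨ (j : ℕ) = 1 ∨ (j : ℕ) = 2 := by
      have h1 := j.2
      omega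
    rcases hj with h | h | h
    · have hj0 : j = 0 := Fin.ext h
      rw [if_pos hj0, h]
      ring
    · have hj0 : j ≠ 0 := fun h0 => by rw [h0] at h; exact absurd h (by decide)
      rw [if_neg hj0, h]
      linear_combination (2 * R1 L Ω (Ω / 9)) * hs + (2 * om * R1 L Ω (Ω / 9)) * h3
    · have hj0 : j ≠ 0 := fun h0 => by rw [h0] at h; exact absurd h (by decide)
      rw [if_neg hj0, h]
      linear_combination (2 * R1 L Ω (Ω / 9)) * hs +
        (2 * om * R1 L Ω (Ω / 9) + 2 * R1 L Ω (Ω / 9) * (om ^ 5 + om ^ 2)) * h3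
  rw [e] at l
  exact l

/-- the three characters together -/
theorem totV {w : ℂ} (hp : Gd L (Ω / 9 + w)) (hm : Gd L (Ω / 9 - w)) :
    Tendsto (fun δ : ℝ => ∑ j : Fin 3, ∑ y : eis ⧸ (sp 9 : Ideal eis), e1 j y.out *
      EE eis Ω δ (Ω * y.out / (9 : eis) + w)) (𝓝[>] 0)
      (𝓝 (3 * (R1 L Ω (Ω / 9 + w) + R1 L Ω (Ω / 9 - w)))) := by
  have eo1 := hX.2.2.2.2.2.2.2.1
  have e1_ncop := hX.2.2.2.2.2.2.2.2.1
  have e1_ut := hX.2.2.2.2.2.2.2.2.2.2.1
  have e9' : ((9 : eis) : ℂ) = 9 := rfl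
  have e3 : ((3 : eis) : ℂ) = 3 := rfl
  have l := ((hR hX L Ω hC _ hp).add (hR hX L Ω hC _ hm)).const_mul 3
  refine l.congr fun δ => ?_
  symm
  have h0 : ∑ j : Fin 3, ∑ y : eis ⧸ (sp 9 : Ideal eis), e1 j y.out *
      EE eis Ω δ (Ω * y.out / (9 : eis) + w) =
      ∑ y : eis ⧸ (sp 9 : Ideal eis), (∑ j : Fin 3, e1 j y.out) *
      EE eis Ω δ (Ω * y.out / (9 : eis) + w) := by
    rw [Finset.sum_comm]
    exact Finset.sum_congr rfl fun y _ => by rw [Finset.sum_mul]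
  rw [h0]
  have h1 := sum9 (F := fun x => (∑ j : Fin 3, e1 j x) *
    EE eis Ω δ (Ω * x / ((9 : eis) : ℂ) + w))
    (per9 hC (fun x => ∑ j : Fin 3, e1 j x) (fun x y hxy =>
      Finset.sum_congr rfl fun j _ => (eo1 j).per x y hxy) δ w) (fun x hx => by
      show (∑ j : Fin 3, e1 j x) * _ = 0
      rw [Finset.sum_eq_zero fun j _ => e1_ncop j x hx, zero_mul])
  rw [h1]
  have hterm : ∀ u : eis, IsUnit u → Sm (3 : eis) (fun t => (∑ j : Fin 3, e1 j (u * (1 + 3 * t))) *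
      EE eis Ω δ (Ω * ((u * (1 + 3 * t) : eis) : ℂ) / ((9 : eis) : ℂ) + w)) =
      ((u : ℂ) + (u : ℂ) ^ 3 + (u : ℂ) ^ 5) * Sm (3 : eis) (fun t => t1 (1 + 3 * t) *
      EE eis Ω δ ((u : ℂ) * (Ω / 9 + Ω * t / 3) + w)) := by
    intro u hu
    rw [← Sm_mul_left]
    refine Finset.sum_congr rfl fun t _ => ?_
    have e : Ω * ((u * (1 + 3 * t) : eis) : ℂ) / ((9 : eis) : ℂ) =
        (u : ℂ) * (Ω / 9 + Ω * t / 3) := by
      push_cast
      rw [e9', e3]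
      ring
    have e2 : (∑ j : Fin 3, e1 j (u * (1 + 3 * t))) =
        ((u : ℂ) + (u : ℂ) ^ 3 + (u : ℂ) ^ 5) * t1 (1 + 3 * t) := by
      rw [Fin.sum_univ_three, e1_ut _ u t hu, e1_ut _ u t hu, e1_ut _ u t hu]
      simp only [Fin.val_zero, Fin.val_one, Fin.val_two]
      ring
    beta_reduce
    rw [e, e2, mul_assoc]
  unfold six
  beta_reduce
  rw [hterm 1 (un _ (by simp)), hterm (-1) (un _ (by simp)), hterm omr (un _ (by simp)),
    hterm (-omr) (un _ (by simp)), hterm (omr ^ 2) (un _ (by simp)),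
    hterm (-omr ^ 2) (un _ (by simp))]
  have h3 := om_cube
  have hs := om_sq
  have z1 : om + om ^ 3 + om ^ 5 = 0 := by linear_combination hs + (1 + om ^ 2) * h3
  have z2 : om ^ 2 + (om ^ 2) ^ 3 + (om ^ 2) ^ 5 = 0 := by
    linear_combination hs + (om ^ 3 + 1 + om * (om ^ 6 + om ^ 3 + 1)) * h3
  push_cast
  rw [omr_coe]
  have z3 : -om + (-om) ^ 3 + (-om) ^ 5 = 0 := by linear_combination -z1
  have z4 : -om ^ 2 + (-om ^ 2) ^ 3 + (-om ^ 2) ^ 5 = 0 := by linear_combination -z2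
  rw [z1, z2, z3, z4]
  have a1 : Sm (3 : eis) (fun t => t1 (1 + 3 * t) *
      EE eis Ω δ ((1 : ℂ) * (Ω / 9 + Ω * t / 3) + w)) = Sm (3 : eis) (fun t => t1 (1 + 3 * t) *
      EE eis Ω δ (Ω / 9 + w + Ω * t / 3)) := by
    refine Finset.sum_congr rfl fun t _ => ?_
    ring_nf
  have a2 : Sm (3 : eis) (fun t => t1 (1 + 3 * t) *
      EE eis Ω δ ((-1 : ℂ) * (Ω / 9 + Ω * t / 3) + w)) = (-1) * Sm (3 : eis) (fun t => t1 (1 + 3 * t) *
      EE eis Ω δ (Ω / 9 - w + Ω * t / 3)) := by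
    rw [← Sm_mul_left]
    refine Finset.sum_congr rfl fun t _ => ?_
    have e : (-1 : ℂ) * (Ω / 9 + Ω * t / 3) + w = -(Ω / 9 - w + Ω * t / 3) := by ring
    beta_reduce
    rw [e, EE_neg]
    ring
  rw [a1, a2]
  ring

/-- **The limits of the sums for the three characters.** -/
theorem Ph_totV {c : eis} (hc : c ≠ 0) (h3c : IsCoprime 3 c) (x : eis) :
    ∑ j : Fin 3, Ph L Ω 9 (e1 j) (Ef1 L Ω j) c x =
      3 * (R1 L Ω (Ω / 9 + Ω * x / c) + R1 L Ω (Ω / 9 - Ω * x / c)) := by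
  have eo1 := hX.2.2.2.2.2.2.2.1
  have h9c : IsCoprime (9 : eis) c := by
    have e9 : (9 : eis) = 3 * 3 := by norm_num
    rw [e9]
    exact h3c.mul_left h3c
  have hp := gd_z0 hC hc h3c x
  have hm := gd_z0 hC hc h3c (-x)
  have e : Ω / 9 + Ω * ((-x : eis) : ℂ) / c = Ω / 9 - Ω * x / c := by
    push_cast
    ring
  rw [e] at hm
  have l1 := totV hX hR hC hp hm
  have l2 : Tendsto (fun δ : ℝ => ∑ j : Fin 3, ∑ y : eis ⧸ (sp 9 : Ideal eis), e1 j y.out *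
      EE eis Ω δ (Ω * y.out / (9 : eis) + Ω * x / c)) (𝓝[>] 0)
      (𝓝 (∑ j : Fin 3, Ph L Ω 9 (e1 j) (Ef1 L Ω j) c x)) :=
    tendsto_finsetSum _ fun j _ => lim_Ph hC.lat nine_ne hc h9c (eo1 j) (lim_e1 hX hR hC j) x
  exact tendsto_nhds_unique l2 l1

end

theorem t_LIMV : S_LIMV := by
  intro hX hR L Ω hC _
  exact ⟨fun j => lim_e1 hX hR hC j, fun c hc h3c x => Ph_totV hX hR hC hc h3c x⟩

end Pool.Agent.E8helper64.CTV
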